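import Pool.Agent.N212.FQ.F

/-!
# Fujita's very ampleness conjecture for étale quotients by arbitrary finite groups of projective
transformations

`Y ⊂ P^N` is given by a homogeneous ideal `I`, and a finite group `G` acts linearly on `ℂ^(N+1)`,
preserving `I`; the group `G/S`, `S` the subgroup of the elements acting by scalars, acts freely on
`Y`. Every finite group of projective transformations of `P^N` is such a `G/S`. Let `n = dim Y` and
`ω_Y = O(κ)`. The line bundles on `X = Y/G` whose pullback to `Y` is `O(k)` are given by the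
characters of `G` which are `c ^ k` on the elements acting by the scalar `c`. If `A` is such a line
bundle, `k ≥ 1`, then the sections of `K_X + mA` are the forms of degree `e = κ + mk` on the cone
over `Y` on which `G` acts by a certain character `χ`, which is `c ^ e` on the elements acting by
the scalar `c`. Let `m ≥ n + 2` and let `Y` be a complete intersection (or let `I` be generated by
forms of degree at most `e + 1`). These sections have no common zero, separate points and separate
tangent vectors in the following cases: `G/S` has at most `e` elements; `Y` is a hypersurface of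
positive dimension and `κ ≤ 0`; `Y` is a hypersurface of positive dimension and `O(1)` is the
pullback of a line bundle on `X`.
-/

set_option autoImplicit false

namespace Pool.Agent.Results.MP_e09b14_ag.FiniteQuotients

open MvPolynomial

/-- An ideal `I` in `ℂ[x_0, …, x_N]` and a linear action `ρ` of `G` on `ℂ^(N+1)`. The ideal `I` is
stable under `G`, and an element which fixes a line in the zero set of `I` acts by a scalar. -/
structure ProjectiveCover (G : Type) [Group G] (N : ℕ) where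
  I : Ideal (MvPolynomial (Fin (N + 1)) ℂ)
  ρ : Representation ℂ G (Fin (N + 1) → ℂ)
  stable : ∀ (g : G), ∀ p ∈ I, bind₁ (fun i => ∑ j, C (ρ g (Pi.single j 1) i) * X j) p ∈ I
  free : ∀ v : Fin (N + 1) → ℂ, v ≠ 0 → (∀ p ∈ I, eval v p = 0) → ∀ (g : G) (μ : ℂ),
    ρ g v = μ • v → ∃ c : ℂ, ∀ x, ρ g x = c • x

/-- `I` is generated by `c = N - n` forms of degrees `d j ≥ 1`, and `κ = ∑ d j - (N + 1)`. -/
def CompleteIntersection {N : ℕ} (I : Ideal (MvPolynomial (Fin (N + 1)) ℂ)) (n : ℕ) (κ : ℤ) :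
    Prop :=
  ∃ (c : ℕ) (f : Fin c → MvPolynomial (Fin (N + 1)) ℂ) (d : Fin c → ℕ),
    (∀ j, (f j).IsHomogeneous (d j) ∧ 0 < d j) ∧ I = Ideal.span (Set.range f) ∧
    N = n + c ∧ κ = ∑ j, (d j : ℤ) - (N + 1)

/-- `I` is generated by forms of degree at most `b`. -/
def GeneratedInDegreesLE {N : ℕ} (I : Ideal (MvPolynomial (Fin (N + 1)) ℂ)) (b : ℕ) : Prop :=
  I = Ideal.span {p | p ∈ I ∧ ∃ t ≤ b, p.IsHomogeneous t}

/-- The forms of degree `e` on which `G` acts by the character `χ`: the sections of the line bundle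
on `X = Y/G` given by `e` and `χ`. -/
def Section {G : Type} [Group G] {N : ℕ} (D : ProjectiveCover G N) (e : ℕ) (χ : G →* ℂˣ)
    (F : MvPolynomial (Fin (N + 1)) ℂ) : Prop :=
  F.IsHomogeneous e ∧
    ∀ (g : G) (x : Fin (N + 1) → ℂ), eval (D.ρ g x) F = χ g * eval x F

/-- The line bundle `O(k)` on `Y` is the pullback of a line bundle on `X = Y/G`. -/
def Descends {G : Type} [Group G] {N : ℕ} (D : ProjectiveCover G N) (k : ℕ) : Prop :=
  ∃ θ : G →* ℂˣ, ∀ (g : G) (c : ℂ), (∀ x, D.ρ g x = c • x) → (θ g : ℂ) = c ^ k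

theorem result {G : Type} [Group G] [Finite G] {N : ℕ} (D : ProjectiveCover G N) (n : ℕ) (κ : ℤ)
    (k m e : ℕ) (hk : 1 ≤ k) (hm : n + 2 ≤ m) (he : (e : ℤ) = κ + m * k)
    (hY : CompleteIntersection D.I n κ ∨ GeneratedInDegreesLE D.I (e + 1))
    -- the order of `G` modulo the scalars is at most `e`, or `Y` is a hypersurface
    (hG : Nat.card G ≤ e * Nat.card {g : G // ∃ c : ℂ, ∀ x, D.ρ g x = c • x} ∨
      CompleteIntersection D.I n κ ∧ 1 ≤ n ∧ N = n + 1 ∧
        (Descends D 1 ∨ Descends D k ∧ κ ≤ 0))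
    (χ : G →* ℂˣ) (hχ : ∀ (g : G) (c : ℂ), (∀ x, D.ρ g x = c • x) → (χ g : ℂ) = c ^ e) :
    -- no base points
    (∀ y : Fin (N + 1) → ℂ, y ≠ 0 → (∀ p ∈ D.I, eval y p = 0) →
      ∃ F, Section D e χ F ∧ eval y F ≠ 0) ∧
    -- points are separated
    (∀ y z : Fin (N + 1) → ℂ, y ≠ 0 → z ≠ 0 → (∀ p ∈ D.I, eval y p = 0) →
      (∀ p ∈ D.I, eval z p = 0) → (¬ ∃ (g : G) (c : ℂ), z = c • D.ρ g y) →
      ∃ F, Section D e χ F ∧ eval y F = 0 ∧ eval z F ≠ 0) ∧
    -- tangent vectors are separated
    (∀ y u : Fin (N + 1) → ℂ, y ≠ 0 → (∀ p ∈ D.I, eval y p = 0) →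
      (∀ p ∈ D.I, ∑ i, eval y (pderiv i p) * u i = 0) → (¬ ∃ c : ℂ, u = c • y) →
      ∃ F, Section D e χ F ∧ eval y F = 0 ∧ ∑ i, eval y (pderiv i F) * u i ≠ 0) := by
  have hmk : (n : ℤ) + 2 ≤ m * k := by
    have h1 : n + 2 ≤ m * k := hm.trans (Nat.le_mul_of_pos_right m hk)
    exact_mod_cast h1
  -- the degrees of generators
  have hgen : ∃ (J : Type) (f : J → MvPolynomial (Fin (N + 1)) ℂ) (d : J → ℕ),
      (∀ j, (f j).IsHomogeneous (d j)) ∧ (∀ j, d j ≤ e + 1) ∧ D.I = Ideal.span (Set.range f) := by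
    rcases hY with ⟨c, f, d, hfd, hI, hN, hκ⟩ | h
    · refine ⟨Fin c, f, d, fun j => (hfd j).1, fun j => ?_, hI⟩
      have h1 : ∑ i, ((d i : ℤ) - 1) = ∑ i, (d i : ℤ) - c := by
        rw [Finset.sum_sub_distrib]
        simp
      have h2 : (d j : ℤ) - 1 ≤ ∑ i, ((d i : ℤ) - 1) :=
        Finset.single_le_sum (f := fun i => (d i : ℤ) - 1) (fun i _ => by
          have := (hfd i).2
          omega) (Finset.mem_univ j)
      have h3 : (N : ℤ) = n + c := by exact_mod_cast hN
      have h4 : (d j : ℤ) ≤ e + 1 := by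
        rw [he, hκ, h3]
        linarith
      exact_mod_cast h4
    · choose t ht1 ht2 using fun p : {p | p ∈ D.I ∧ ∃ t ≤ e + 1, p.IsHomogeneous t} => p.2.2
      refine ⟨_, Subtype.val, t, ht2, ht1, ?_⟩
      rw [Subtype.range_val]
      exact h
  obtain ⟨J, f, d, hf, hd, hI⟩ := hgen
  have hS := Pool.Agent.N212.FQ.free_of_ideal hf hI D.stable D.free
  have hr : (Pool.Agent.N212.FQ.scalars D.ρ).index ≤ e := by
    rcases hG with hG | ⟨⟨c, f, d, hfd, hI, hN, hκ⟩, hn, hNn, hD⟩
    · exact Pool.Agent.N212.FQ.index_le hG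
    · obtain rfl : c = 1 := by omega
      have h1 : Set.range f = {f 0} := by
        ext x
        simp [eq_comm]
      rw [h1] at hI
      have h2 : ∀ l : ℕ, 1 ≤ l → Descends D l →
          (Pool.Agent.N212.FQ.scalars D.ρ).index ≤ l * d 0 := by
        rintro l hl ⟨θ, hθ⟩
        exact Pool.Agent.N212.FQ.index_hypersurface (ρ := D.ρ) (by omega) (hfd 0).2 hl (hfd 0).1
          (by
            rw [← hI]
            exact D.stable) (by
            rw [← hI]
            exact D.free) θ hθ
      have hκ' : κ = d 0 - (n + 2) := by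
        rw [hκ, Fin.sum_univ_one, hNn]
        push_cast
        ring
      rcases hD with hD | ⟨hD, hκ0⟩
      · refine (h2 1 le_rfl hD).trans ?_
        have h3 : (d 0 : ℤ) ≤ e := by
          rw [he, hκ']
          linarith
        have h4 : d 0 ≤ e := by exact_mod_cast h3
        omega
      · refine (h2 k hk hD).trans ?_
        have h3 : ((n : ℤ) + 2) * k ≤ m * k := by
          have h5 : (n + 2) * k ≤ m * k := Nat.mul_le_mul_right k hm
          exact_mod_cast h5
        have h6 : (0 : ℤ) ≤ (n + 2 - d 0) * (k - 1) := by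
          refine mul_nonneg (by linarith) ?_
          have : (1 : ℤ) ≤ k := by exact_mod_cast hk
          linarith
        have h4 : (k : ℤ) * d 0 ≤ e := by
          rw [he, hκ']
          nlinarith
        exact_mod_cast h4
  refine ⟨?_, ?_, ?_⟩
  · intro y hy0 hy
    exact Pool.Agent.N212.FQ.freeness hS (by omega) χ hχ hy0
      ((Pool.Agent.N212.FQ.zero_iff hI y).2 hy)
  · intro y z hy0 hz0 hy hz hyz
    exact Pool.Agent.N212.FQ.points hS hr hd χ hχ hy0 hz0
      ((Pool.Agent.N212.FQ.zero_iff hI y).2 hy) ((Pool.Agent.N212.FQ.zero_iff hI z).2 hz)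
      fun g t h => hyz ⟨g, t, h⟩
  · intro y u hy0 hy hu hne
    exact Pool.Agent.N212.FQ.tangents hS hr hd χ hχ hy0
      ((Pool.Agent.N212.FQ.zero_iff hI y).2 hy)
      ((Pool.Agent.N212.FQ.tangent_iff hI hy).2 hu) fun t h => hne ⟨t, h⟩

end Pool.Agent.Results.MP_e09b14_ag.FiniteQuotients
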